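import Mathlib
import Pool.Agent.QPI.Stmts

set_option autoImplicit false

namespace Pool.Agent.QPI.H26

open MvPolynomial

theorem ex_sum (hLin : LinStmt) {κ : Type} [Fintype κ] [DecidableEq κ] {ι : Type} (s : Finset ι)
    (g : ι → MvPolynomial κ ℚ) : Ex (∑ i ∈ s, g i) = ∑ i ∈ s, Ex (g i) := by
  classical
  have h0 : Ex (0 : MvPolynomial κ ℚ) = 0 := by
    have h := (hLin κ).2.1 0 0
    simpa using h
  induction s using Finset.induction_on with
  | empty => simpa using h0
  | insert a s ha ih => rw [Finset.sum_insert ha, Finset.sum_insert ha, (hLin κ).1, ih]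

theorem a_gam (hLin : LinStmt) (hMom : MomStmt) : GamStmt := by
  intro κ υ _ _ _ _ B hB p
  unfold Gam
  have h1 : aeval (fun v => frm (B v)) p = ∑ α ∈ p.support, C (p.coeff α) * Qp B α := by
    rw [aeval_def, eval₂_eq']
    refine Finset.sum_congr rfl fun α _ => ?_
    rw [algebraMap_eq]
    rfl
  rw [h1, ex_sum hLin]
  refine Finset.sum_congr rfl fun α _ => ?_
  rw [(hLin κ).2.1, hMom κ υ B hB α]
  unfold gg
  have h2 : (∏ v, ((α v).factorial : ℚ)) ≠ 0 :=
    Finset.prod_ne_zero_iff.2 fun v _ => Nat.cast_ne_zero.2 (Nat.factorial_ne_zero _)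
  field_simp

end Pool.Agent.QPI.H26
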