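import Mathlib
import Pool.Agent.QPI.Stmts

set_option autoImplicit false

namespace Pool.Agent.QPI.H26

open MvPolynomial

theorem a_mat : MatStmt := by
  intro N₁ N₂ ι _ _ l A hA
  refine ⟨?_, ?_, ?_, ?_⟩
  · intro w
    apply Matrix.IsSymm.ext
    intro i j
    rcases w with _ | (u | v)
    · rcases i with _ | i <;> rcases j with _ | j <;> simp [mat]
    · rcases i with _ | i <;> rcases j with _ | j <;> rfl
    · rcases i with _ | i <;> rcases j with _ | j
      · rfl
      · rfl
      · rfl
      · exact (hA v).apply i j
  · unfold frm
    simp only [Fintype.sum_option, mat, Matrix.of_apply]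
    simp [sq]
  · intro u
    unfold frm
    simp only [Fintype.sum_option, mat, Matrix.of_apply, form, Sum.elim_inl, map_sum, map_mul,
      rename_C, rename_X, map_zero, zero_mul, add_zero, zero_add, Finset.sum_const_zero,
      Finset.mul_sum]
    rw [← Finset.sum_add_distrib]
    refine Finset.sum_congr rfl fun s _ => ?_
    have h : (C (l u s) : MvPolynomial (Option ι) ℚ) = C (l u s / 2) + C (l u s / 2) := by
      rw [← map_add, add_halves]
    rw [h]
    ring
  · intro v
    unfold frm
    simp only [Fintype.sum_option, mat, Matrix.of_apply, form, Sum.elim_inr, map_sum, map_mul,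
      rename_C, rename_X, map_zero, zero_mul, add_zero, zero_add, Finset.sum_const_zero]

end Pool.Agent.QPI.H26
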