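import Pool.Agent.Helper26_QPI.All
import Pool.Agent.Helper26_QPI.A_MAT
import Pool.Agent.Helper26_QPI.A_GAM
import Pool.Agent.Helper23_QPI.D_SBC

set_option autoImplicit false

/-! All rows of squad QPI together, conclusion. -/

namespace Pool.Agent.QPI.H26

theorem mat_ : MatStmt := a_mat
theorem gam : GamStmt := a_gam lin mom_
theorem sbc : SbcStmt := H23.d_sbc
theorem nrmS : NrmStmt := nrm_ gam mat_
theorem sbwS : SbwStmt := sbw sbc
theorem nrbS : NrbStmt := nrb nrmS
theorem cor : CorStmt := cor_ nrmS cri wdg map_ upa sca hat_ whw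

end Pool.Agent.QPI.H26
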