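import Mathlib
import Pool.Agent.QPI.DefsF

set_option autoImplicit false

namespace Pool.Agent.QPI.H26

open MvPolynomial

theorem tested_count (N₁ N₂ k m M : ℕ) (τ : Type) [Fintype τ]
    (R : τ → MvPolynomial (Fin N₁ ⊕ Fin N₂) ℚ)
    (f : Fin m → MvPolynomial (Fin N₁ ⊕ Fin N₂) ℚ) (e : τ → Fin m → ℕ)
    (hk : Fintype.card τ ≤ k) :
    {p | Tested R f e M p}.Finite ∧ {p | Tested R f e M p}.ncard ≤ (k + 2) ^ (k + 3) * (M + 1) := by
  classical
  let T := Σ s : Fin (k + 2), (Fin s → τ) × Fin (M + 1) × Option (Fin s)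
  let g : T → MvPolynomial (Fin N₁ ⊕ Fin N₂) ℚ := fun x =>
    match x with
    | ⟨_, t, μ, none⟩ => wro R f e t μ
    | ⟨_, t, μ, some b⟩ => ∑ i : τ, wro R f e (Function.update t b i) μ
  have hsub : {p | Tested R f e M p} ⊆ Set.range g := by
    rintro p (⟨s, t, μ, hs, hμ, rfl⟩ | ⟨s, t, μ, b, hs, hμ, rfl⟩)
    · exact ⟨⟨⟨s, by omega⟩, t, ⟨μ, by omega⟩, none⟩, rfl⟩
    · exact ⟨⟨⟨s, by omega⟩, t, ⟨μ, by omega⟩, some b⟩, rfl⟩
  have hfin : (Set.range g).Finite := Set.finite_range g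
  refine ⟨hfin.subset hsub, ?_⟩
  refine (Set.ncard_le_ncard hsub hfin).trans ?_
  have h1 : (Set.range g).ncard ≤ Fintype.card T := by
    rw [← Set.image_univ]
    refine (Set.ncard_image_le Set.finite_univ).trans ?_
    rw [Set.ncard_univ, Nat.card_eq_fintype_card]
  refine h1.trans ?_
  rw [Fintype.card_sigma]
  have h2 : ∀ s : Fin (k + 2), Fintype.card ((Fin s → τ) × Fin (M + 1) × Option (Fin s)) ≤
      (k + 2) ^ (k + 1) * ((M + 1) * (k + 2)) := by
    intro s
    rw [Fintype.card_prod, Fintype.card_prod, Fintype.card_fun, Fintype.card_fin, Fintype.card_fin,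
      Fintype.card_option, Fintype.card_fin]
    have h3 : Fintype.card τ ^ (s : ℕ) ≤ (k + 2) ^ (k + 1) :=
      (Nat.pow_le_pow_left (by omega : Fintype.card τ ≤ k + 2) _).trans
        (Nat.pow_le_pow_right (by omega) (by omega))
    exact Nat.mul_le_mul h3 (Nat.mul_le_mul_left _ (by omega))
  refine (Finset.sum_le_card_nsmul _ _ _ fun s _ => h2 s).trans ?_
  rw [Finset.card_univ, Fintype.card_fin, smul_eq_mul]
  apply le_of_eq
  ring

end Pool.Agent.QPI.H26
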