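import Mathlib
import Pool.Agent.QPI.Stmts

set_option autoImplicit false

namespace Pool.Agent.QPI.H26

open MvPolynomial

theorem cor_ (hNrm : NrmStmt) (hCri : CriStmt) (hWdg : WdgStmt) (hMap : MapStmt) (hUpa : UpaStmt)
    (hSca : ScaStmt) (hHat : HatStmt) (hWhw : WhwStmt) : CorStmt := by
  intro N₁ N₂ k m ρ δ ι τ _ _ _ l A R f e hcard hA hf hR hfd
  classical
  set K := FractionRing (MvPolynomial ι ℚ) with hK
  set φ : MvPolynomial ι ℚ →ₐ[ℚ] K := Algebra.algHom ℚ (MvPolynomial ι ℚ) K with hφ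
  have hφinj : Function.Injective φ := IsFractionRing.injective (MvPolynomial ι ℚ) K
  set ψ : Fin N₁ ⊕ Fin N₂ → K := fun v => φ (form l A v) with hψ
  haveI : CharZero K := charZero_of_injective_algebraMap (R := ℚ) (algebraMap ℚ K).injective
  have hcomp : ∀ p : MvPolynomial (Fin N₁ ⊕ Fin N₂) ℚ, aeval ψ p = φ (aeval (form l A) p) := by
    intro p
    have h1 : (aeval ψ : MvPolynomial (Fin N₁ ⊕ Fin N₂) ℚ →ₐ[ℚ] K) =
        φ.comp (aeval (form l A)) := by
      apply MvPolynomial.algHom_ext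
      intro v
      rw [aeval_X, AlgHom.comp_apply, aeval_X]
    rw [h1, AlgHom.comp_apply]
  -- base change
  have hmapφ : ∀ p : MvPolynomial (Fin N₁ ⊕ Fin N₂) ℚ,
      PowerSeries.map φ.toRingHom (hat (form l A) p) = hat ψ p := by
    intro p
    rw [← hMap.2 N₁ N₂ _ (form l A) p, ← hMap.2 N₁ N₂ _ ψ p]
    ext μ
    rw [PowerSeries.coeff_map, PowerSeries.coeff_map, PowerSeries.coeff_map]
    exact (hcomp _).symm
  have hc1 : ∀ j, PowerSeries.constantCoeff (hat ψ (f j)) = 1 := by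
    intro j
    rw [(hHat N₁ N₂ K ψ (f j)).1, hf j, map_one]
  have hc2 : ∀ j, PowerSeries.constantCoeff
      (hat (X : Fin N₁ ⊕ Fin N₂ → MvPolynomial (Fin N₁ ⊕ Fin N₂) ℚ) (f j)) = 1 := by
    intro j
    rw [(hHat N₁ N₂ _ X (f j)).1, hf j, map_one]
  have hcoef : ∀ (s : ℕ) (t : Fin s → τ) (μ : ℕ),
      PowerSeries.coeff μ (WW (fun i => hat ψ (R i)) (fun j => hat ψ (f j)) e t) =
        φ (aeval (form l A) (wro R f e t μ)) := by
    intro s t μ
    have h1 := hMap.1 (MvPolynomial (Fin N₁ ⊕ Fin N₂) ℚ) K τ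
      (aeval ψ : MvPolynomial (Fin N₁ ⊕ Fin N₂) ℚ →ₐ[ℚ] K).toRingHom m s
      (fun i => hat X (R i)) (fun j => hat X (f j)) e t hc2
    have h2 : (fun i => PowerSeries.map (aeval ψ : MvPolynomial (Fin N₁ ⊕ Fin N₂) ℚ →ₐ[ℚ] K).toRingHom
        (hat X (R i))) = fun i => hat ψ (R i) := by
      funext i
      exact hMap.2 N₁ N₂ K ψ (R i)
    have h3 : (fun j => PowerSeries.map (aeval ψ : MvPolynomial (Fin N₁ ⊕ Fin N₂) ℚ →ₐ[ℚ] K).toRingHom
        (hat X (f j))) = fun j => hat ψ (f j) := by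
      funext j
      exact hMap.2 N₁ N₂ K ψ (f j)
    rw [h2, h3] at h1
    rw [← h1, PowerSeries.coeff_map]
    exact hcomp _
  have hzero : ∀ (p : MvPolynomial (Fin N₁ ⊕ Fin N₂) ℚ) (μ : ℕ),
      IsWeightedHomogeneous (wt : Fin N₁ ⊕ Fin N₂ → ℕ) p μ →
      (φ (aeval (form l A) p) = 0 ↔ nrm l A p = 0) := by
    intro p μ hp
    rw [(hNrm N₁ N₂ ι l A hA p μ hp).2, map_eq_zero_iff φ hφinj]
  have hwh := hWhw N₁ N₂ m
  have key := hCri K τ ((k + 1) * (ρ + k * (m * δ)))
    (fun i => (∏ j, hat ψ (f j) ^ e i j) * hat ψ (R i))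
    (fun i => ∏ j, hat ψ (f j) ^ e i j)
    (fun i => Pa (dlog (fun j => hat ψ (f j)) (e i)) (hat ψ (R i)))
    (by
      intro i
      rw [map_prod]
      apply Finset.prod_eq_one
      intro j _
      rw [map_pow, hc1, one_pow])
    (by
      intro i a
      exact hUpa K m (fun j => hat ψ (f j)) (e i) (hat ψ (R i)) hc1 a)
    (by
      intro s t hs h
      exact hWdg K τ k m ρ δ s (fun i => hat ψ (R i)) (fun j => hat ψ (f j)) e t hc1
        (fun j => (hHat N₁ N₂ K ψ (f j)).2 δ (hfd j)) (fun i => (hHat N₁ N₂ K ψ (R i)).2 ρ (hR i))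
        (hs.trans (by omega)) h)
  have hsum : ∑ i, (∏ j, hat ψ (f j) ^ e i j) * hat ψ (R i) =
      hat ψ (∑ i, R i * ∏ j, f j ^ e i j) := by
    rw [map_sum]
    refine Finset.sum_congr rfl fun i _ => ?_
    rw [map_mul, map_prod, mul_comm]
    congr 1
    exact Finset.prod_congr rfl fun j _ => (map_pow _ _ _).symm
  have hF : ∑ i, aeval (form l A) (R i) * ∏ j, aeval (form l A) (f j) ^ e i j =
      aeval (form l A) (∑ i, R i * ∏ j, f j ^ e i j) := by
    rw [map_sum]
    refine Finset.sum_congr rfl fun i _ => ?_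
    rw [map_mul, map_prod]
    congr 1
    exact Finset.prod_congr rfl fun j _ => (map_pow _ _ _).symm
  have hiff : ∑ i, aeval (form l A) (R i) * ∏ j, aeval (form l A) (f j) ^ e i j = 0 ↔
      ∑ i, (∏ j, hat ψ (f j) ^ e i j) * hat ψ (R i) = 0 := by
    rw [hsum, hF, ← hmapφ, (hSca N₁ N₂ ι l A).1]
    constructor
    · intro h
      rw [h, map_zero, map_zero]
    · intro h
      have hinj := PowerSeries.map_injective φ.toRingHom hφinj
      have h1 := hinj (h.trans (map_zero _).symm)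
      exact (hSca N₁ N₂ ι l A).2 (h1.trans (map_zero _).symm)
  rw [hiff, key]
  unfold Test
  refine exists_congr fun s => exists_congr fun t => exists_congr fun w => ?_
  have hW : ∀ (s' : ℕ) (t' : Fin s' → τ) (μ : ℕ),
      PowerSeries.coeff μ (Matrix.det (Matrix.of fun a b : Fin s' =>
        Pa (dlog (fun j => hat ψ (f j)) (e (t' b))) (hat ψ (R (t' b))) a)) =
        φ (aeval (form l A) (wro R f e t' μ)) := fun s' t' μ => hcoef s' t' μ
  have hN : ∀ (s' : ℕ) (t' : Fin s' → τ) (μ : ℕ),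
      (φ (aeval (form l A) (wro R f e t' μ)) = 0 ↔ nrm l A (wro R f e t' μ) = 0) :=
    fun s' t' μ => hzero _ μ (hwh s' τ R f e t' μ hf)
  have hlast : ∀ c : Fin s, (∑ i : τ, PowerSeries.coeff w (Matrix.det (Matrix.of fun a b : Fin s =>
      Pa (dlog (fun j => hat ψ (f j)) (e (Function.update t c i b)))
        (hat ψ (R (Function.update t c i b))) a)) = 0 ↔
      nrm l A (∑ i : τ, wro R f e (Function.update t c i) w) = 0) := by
    intro c
    rw [← hzero (∑ i : τ, wro R f e (Function.update t c i) w) w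
      (IsWeightedHomogeneous.sum Finset.univ _ w fun i _ => hwh s τ R f e _ w hf), map_sum, map_sum]
    have : ∀ i : τ, PowerSeries.coeff w (Matrix.det (Matrix.of fun a b : Fin s =>
      Pa (dlog (fun j => hat ψ (f j)) (e (Function.update t c i b)))
        (hat ψ (R (Function.update t c i b))) a)) =
        φ (aeval (form l A) (wro R f e (Function.update t c i) w)) := fun i => hW s _ w
    simp_rw [this]
  constructor
  · rintro ⟨h1, h2, h3, h4, h5, h6⟩
    refine ⟨h1, h2, ?_, ?_, ?_, ?_⟩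
    · rw [hW] at h3
      exact fun h => h3 ((hN _ _ _).2 h)
    · intro μ hμ
      exact (hN _ _ _).1 ((hW _ _ _).symm.trans (h4 μ hμ))
    · intro i μ hμ
      exact (hN _ _ _).1 ((hW _ _ _).symm.trans (h5 i μ hμ))
    · intro c
      exact (hlast c).1 (h6 c)
  · rintro ⟨h1, h2, h3, h4, h5, h6⟩
    refine ⟨h1, h2, ?_, ?_, ?_, ?_⟩
    · rw [hW]
      exact fun h => h3 ((hN _ _ _).1 h)
    · intro μ hμ
      exact (hW _ _ _).trans ((hN _ _ _).2 (h4 μ hμ))
    · intro i μ hμ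
      exact (hW _ _ _).trans ((hN _ _ _).2 (h5 i μ hμ))
    · intro c
      exact (hlast c).2 (h6 c)

end Pool.Agent.QPI.H26
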