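import Mathlib
import Pool.Agent.QPI.DefsF

set_option autoImplicit false

namespace Pool.Agent.QPI.H26

open MvPolynomial Helper78_ACIT

theorem wtd_C_mul {N₁ N₂ : ℕ} (c : ℚ) (p : MvPolynomial (Fin N₁ ⊕ Fin N₂) ℚ) :
    weightedTotalDegree (wt : Fin N₁ ⊕ Fin N₂ → ℕ) (C c * p) ≤
      weightedTotalDegree (wt : Fin N₁ ⊕ Fin N₂ → ℕ) p := by
  rw [← smul_eq_C_mul]
  unfold weightedTotalDegree
  exact Finset.sup_mono MvPolynomial.support_smul

theorem main1 (hClu : CluStmt) (hDeg : DegStmt) (hShi : ShiStmt) (hCor : CorStmt)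
    (n N₁ N₂ N m k ρ δ B : ℕ) (l : Fin N₁ → Fin n → ℚ) (A : Fin N₂ → Matrix (Fin n) (Fin n) ℚ)
    (R : Fin N → MvPolynomial (Fin N₁ ⊕ Fin N₂) ℚ) (f : Fin m → MvPolynomial (Fin N₁ ⊕ Fin N₂) ℚ)
    (b : Fin m → ℚ) (e : Fin N → Fin m → ℕ) (a : ℕ → ℚ) (β : ℚ)
    (hA : ∀ v, (A v).IsSymm) (hf : ∀ j, constantCoeff (f j) = 1) (hb : ∀ j, b j ≠ 0) (hβ : β ≠ 0)
    (hR : ∀ i, weightedTotalDegree (wt : Fin N₁ ⊕ Fin N₂ → ℕ) (R i) ≤ ρ)
    (hfd : ∀ j, weightedTotalDegree (wt : Fin N₁ ⊕ Fin N₂ → ℕ) (f j) ≤ δ)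
    (hB : N ^ 2 * (m * δ) + N * ρ ≤ B)
    (hcop : ((∀ j, 1 ≤ (aeval (form l A) (f j)).totalDegree) ∧
      Pairwise fun i j => IsRelPrime (aeval (form l A) (f i)) (aeval (form l A) (f j))) ∨
      ∀ i i' j, e i j ≤ e i' j + B)
    (hk : ∀ i, (cluster e B i).card ≤ k)
    (G : List Gate) (hG : WellFormed G)
    (hpoly : out (fun s => C (a s) + C β * X s : ℕ → MvPolynomial ℕ ℚ) G =
      rename Fin.val (∑ i, aeval (form l A) (R i) *
        ∏ j, (C (b j) * aeval (form l A) (f j)) ^ e i j)) :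
    G ∈ ACIT ↔ ∀ i0, Test l A (cof R b e (cluster e B i0)) f (red e (cluster e B i0))
      ((k + 1) * (ρ + k * (m * δ))) := by
  have h1 : G ∈ ACIT ↔ poly G = 0 := ⟨fun h => h.2, fun h => ⟨hG, h⟩⟩
  have h2 : (rename Fin.val (∑ i, aeval (form l A) (R i) *
        ∏ j, (C (b j) * aeval (form l A) (f j)) ^ e i j) : MvPolynomial ℕ ℚ) = 0 ↔
      ∑ i, aeval (form l A) (R i) * ∏ j, (C (b j) * aeval (form l A) (f j)) ^ e i j = 0 :=
    map_eq_zero_iff _ (rename_injective _ Fin.val_injective)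
  rw [h1, ← hShi G a β hβ, hpoly, h2]
  have hp0 : ∀ j, (C (b j) * aeval (form l A) (f j) : MvPolynomial (Fin n) ℚ) ≠ 0 := by
    intro j h
    have h3 := congrArg constantCoeff h
    rw [map_mul, constantCoeff_C, (hDeg N₁ N₂ (Fin n) l A (f j)).2, hf j, mul_one, map_zero] at h3
    exact hb j h3
  have hunit : ∀ j, IsUnit (C (b j) : MvPolynomial (Fin n) ℚ) := fun j =>
    (isUnit_iff_ne_zero.2 (hb j)).map C
  have hdeg : ∀ j, (C (b j) * aeval (form l A) (f j) : MvPolynomial (Fin n) ℚ).totalDegree ≤ δ := by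
    intro j
    refine (totalDegree_mul _ _).trans ?_
    rw [totalDegree_C, zero_add]
    exact (hDeg N₁ N₂ (Fin n) l A (f j)).1.trans (hfd j)
  have hbd : (N - 1) * (N - 2) * (∑ j, (C (b j) * aeval (form l A) (f j) :
      MvPolynomial (Fin n) ℚ).totalDegree) + ∑ i, (aeval (form l A) (R i)).totalDegree ≤ B := by
    refine le_trans ?_ hB
    have h4 : ∑ j, (C (b j) * aeval (form l A) (f j) : MvPolynomial (Fin n) ℚ).totalDegree ≤
        m * δ := by
      refine (Finset.sum_le_card_nsmul _ _ δ fun j _ => hdeg j).trans ?_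
      rw [Finset.card_univ, Fintype.card_fin, smul_eq_mul]
    have h5 : ∑ i, (aeval (form l A) (R i)).totalDegree ≤ N * ρ := by
      refine (Finset.sum_le_card_nsmul _ _ ρ fun i _ =>
        (hDeg N₁ N₂ (Fin n) l A (R i)).1.trans (hR i)).trans ?_
      rw [Finset.card_univ, Fintype.card_fin, smul_eq_mul]
    have h6 : (N - 1) * (N - 2) ≤ N ^ 2 := by
      rw [sq]
      exact Nat.mul_le_mul (Nat.sub_le _ _) (Nat.sub_le _ _)
    exact add_le_add (Nat.mul_le_mul h6 h4) h5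
  rw [hClu n N m B (fun i => aeval (form l A) (R i)) (fun j => C (b j) * aeval (form l A) (f j)) e
    hp0 hbd (by
      rcases hcop with ⟨h', h⟩ | h
      · left
        refine ⟨fun j => ?_, ?_⟩
        · rw [totalDegree_mul_of_isDomain (by
            intro h0
            exact hb j (C_eq_zero.1 h0)) (by
            intro h0
            have h3 := h' j
            rw [h0, totalDegree_zero] at h3
            omega), totalDegree_C, zero_add]
          exact h' j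
        · intro i j hij d h3 h4
          exact h hij (((hunit i).dvd_mul_left).1 h3) (((hunit j).dvd_mul_left).1 h4)
      · exact Or.inr h)]
  refine forall_congr' fun i0 => ?_
  rw [← hCor N₁ N₂ k m ρ δ (Fin n) {i // i ∈ cluster e B i0} l A (cof R b e (cluster e B i0)) f
    (red e (cluster e B i0)) (by rw [Fintype.card_coe]; exact hk i0) hA hf
    (fun i => (wtd_C_mul _ _).trans (hR i)) hfd]
  have h7 : ∀ i : {i // i ∈ cluster e B i0}, aeval (form l A) (R i) *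
      ∏ j, (C (b j) * aeval (form l A) (f j)) ^ red e (cluster e B i0) i j =
      aeval (form l A) (cof R b e (cluster e B i0) i) *
        ∏ j, aeval (form l A) (f j) ^ red e (cluster e B i0) i j := by
    intro i
    unfold cof
    rw [map_mul, algHom_C, map_prod, algebraMap_eq]
    simp_rw [mul_pow, Finset.prod_mul_distrib, map_pow]
    ring
  simp_rw [h7]

/-- Structure of the tested polynomials. -/
theorem main2 (hVbw : VbwStmt) (hCnt : CntStmt) (hWhw : WhwStmt)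
    (N₁ N₂ k m M r c : ℕ) (τ : Type) [Fintype τ] (R : τ → MvPolynomial (Fin N₁ ⊕ Fin N₂) ℚ)
    (f : Fin m → MvPolynomial (Fin N₁ ⊕ Fin N₂) ℚ) (e : τ → Fin m → ℕ)
    (hk : Fintype.card τ ≤ k) (hf : ∀ j, constantCoeff (f j) = 1)
    (hR : ∀ i, ∀ α ∈ (R i).support, α.support.card ≤ r) (hc : ∀ j, (f j).vars.card ≤ c)
    (p : MvPolynomial (Fin N₁ ⊕ Fin N₂) ℚ) (hp : Tested R f e M p) :
    p.support.card ≤ ((N₁ + N₂) * (M + 1) + 1) ^ ((k + 1) * (r + k * c)) ∧
    ∀ α ∈ p.support, α.support.card ≤ (k + 1) * (r + k * c) := by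
  classical
  have key : ∃ μ ≤ M, IsWeightedHomogeneous (wt : Fin N₁ ⊕ Fin N₂ → ℕ) p μ ∧
      ∀ α ∈ p.support, α.support.card ≤ (k + 1) * (r + k * c) := by
    rcases hp with ⟨s, t, μ, hs, hμ, rfl⟩ | ⟨s, t, μ, b, hs, hμ, rfl⟩
    · exact ⟨μ, hμ, hWhw N₁ N₂ m s τ R f e t μ hf,
        hVbw N₁ N₂ k m s r c τ R f e t μ hf hc hR (by omega)⟩
    · refine ⟨μ, hμ, IsWeightedHomogeneous.sum Finset.univ _ μ
        fun i _ => hWhw N₁ N₂ m s τ R f e _ μ hf, ?_⟩
      intro α hα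
      obtain ⟨i, -, hi⟩ := Finset.mem_biUnion.1 (MvPolynomial.support_sum hα)
      exact hVbw N₁ N₂ k m s r c τ R f e _ μ hf hc hR (by omega) α hi
  obtain ⟨μ, hμ, h1, h2⟩ := key
  refine ⟨(hCnt N₁ N₂ _ μ p h1 h2).trans ?_, h2⟩
  gcongr

end Pool.Agent.QPI.H26
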