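import Mathlib
import Pool.Agent.QPI.DefsF

set_option autoImplicit false

namespace Pool.Agent.QPI.H26

open MvPolynomial

theorem il_sum (hLen : LenStmt) {σ τ : Type} (s : Finset τ) (g : τ → MvPolynomial σ ℚ) (L : ℕ)
    (h : ∀ i ∈ s, IL (g i) L) : IL (∑ i ∈ s, g i) (s.card * L) := by
  classical
  induction s using Finset.induction_on with
  | empty =>
    rw [Finset.sum_empty, Finset.card_empty, zero_mul]
    have h1 := (hLen σ σ 0 0 0 0).2.2.2.2.1 0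
    simpa using h1
  | insert a s ha ih =>
    rw [Finset.sum_insert ha, Finset.card_insert_of_notMem ha, add_mul, one_mul, add_comm]
    exact (hLen σ σ _ _ _ _).1 (ih fun i hi => h i (Finset.mem_insert_of_mem hi))
      (h a (Finset.mem_insert_self a s))

theorem il_int (hLen : LenStmt) {σ : Type} (z : ℤ) : IL (C (z : ℚ) : MvPolynomial σ ℚ) z.natAbs := by
  have h1 : ∀ a : ℕ, IL (a : MvPolynomial σ ℚ) a := (hLen σ σ 0 0 0 0).2.2.2.2.1
  rcases Int.eq_nat_or_neg z with ⟨a, h | h⟩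
  · subst h
    rw [Int.natAbs_natCast, Int.cast_natCast, map_natCast]
    exact h1 a
  · subst h
    rw [Int.natAbs_neg, Int.natAbs_natCast, Int.cast_neg, Int.cast_natCast, map_neg, map_natCast]
    exact (hLen σ σ _ 0 _ 0).2.2.1 (h1 a)

theorem main3 (hSbw : SbwStmt) (hNrb : NrbStmt) (hBit : BitStmt) (hLen : LenStmt)
    (hWhw : WhwStmt) (N₁ N₂ n k m M L E Λ b' : ℕ) (τ : Type) [Fintype τ]
    (l : Fin N₁ → Fin n → ℚ) (A : Fin N₂ → Matrix (Fin n) (Fin n) ℚ)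
    (R : τ → MvPolynomial (Fin N₁ ⊕ Fin N₂) ℚ)
    (f : Fin m → MvPolynomial (Fin N₁ ⊕ Fin N₂) ℚ) (e : τ → Fin m → ℕ)
    (hk : Fintype.card τ ≤ k) (hA : ∀ v, (A v).IsSymm) (hf : ∀ j, constantCoeff (f j) = 1)
    (hΛ1 : 1 ≤ Λ) (hΛ : ∀ v, IL (form l A v) Λ) (hL1 : 1 ≤ L) (hRL : ∀ i, IL (R i) L)
    (hfL : ∀ j, IL (f j) L) (hE : ∀ i j, e i j ≤ E) (hLb : L ≤ 2 ^ b') (hEb : E ≤ 2 ^ b')
    (hΛb : Λ ≤ 2 ^ b') (p : MvPolynomial (Fin N₁ ⊕ Fin N₂) ℚ) (hp : Tested R f e M p) :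
    ∃ z : ℤ, nrm l A p = z ∧ |z| ≤ 2 ^ (50 * (M + k + m + b' + 1) ^ 3) := by
  set Q : ℕ → ℕ := fun μ => (k + 1).factorial * ((1 + m * E * L) ^ k * L) ^ (k + 1) *
      ((k + 1) * (2 ^ k * (3 + 2 * L))) ^ μ with hQ
  have key : ∃ μ ≤ M, IsWeightedHomogeneous (wt : Fin N₁ ⊕ Fin N₂ → ℕ) p μ ∧
      IL p ((k + 1) * Q μ) := by
    rcases hp with ⟨s, t, μ, hs, hμ, rfl⟩ | ⟨s, t, μ, b, hs, hμ, rfl⟩
    · refine ⟨μ, hμ, hWhw N₁ N₂ m s τ R f e t μ hf, ?_⟩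
      have h1 := hSbw N₁ N₂ k m s L E τ R f e t μ hL1 hf hRL hfL hE (by omega)
      exact (hLen _ (Fin N₁ ⊕ Fin N₂) _ 0 _ _).2.2.2.1 (Nat.le_mul_of_pos_left _ (by omega)) h1
    · refine ⟨μ, hμ, IsWeightedHomogeneous.sum Finset.univ _ μ
        fun i _ => hWhw N₁ N₂ m s τ R f e _ μ hf, ?_⟩
      have h1 := il_sum hLen Finset.univ (fun i : τ => wro R f e (Function.update t b i) μ) (Q μ)
        (fun i _ => hSbw N₁ N₂ k m s L E τ R f e _ μ hL1 hf hRL hfL hE (by omega))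
      refine (hLen _ (Fin N₁ ⊕ Fin N₂) _ 0 _ _).2.2.2.1 (Nat.mul_le_mul_right _ ?_) h1
      rw [Finset.card_univ]
      omega
  obtain ⟨μ, hμ, h1, h2⟩ := key
  obtain ⟨z, hz, hz1⟩ := hNrb N₁ N₂ (Fin n) l A p μ _ Λ hA hΛ1 hΛ h2 h1
  refine ⟨z, hz, hz1.trans ?_⟩
  have h3 := hBit k m M b' μ L E Λ hLb hEb hΛb hμ
  exact_mod_cast h3

/-- The size of the numbers for the cluster data. -/
theorem main3' (hSbw : SbwStmt) (hNrb : NrbStmt) (hBit : BitStmt) (hLen : LenStmt)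
    (hWhw : WhwStmt) (hRed : RedStmt) (N₁ N₂ n N k m M B d : ℕ)
    (l : Fin N₁ → Fin n → ℚ) (A : Fin N₂ → Matrix (Fin n) (Fin n) ℚ)
    (R : Fin N → MvPolynomial (Fin N₁ ⊕ Fin N₂) ℚ)
    (f : Fin m → MvPolynomial (Fin N₁ ⊕ Fin N₂) ℚ) (b : Fin m → ℚ) (e : Fin N → Fin m → ℕ)
    (hA : ∀ v, (A v).IsSymm) (hf : ∀ j, constantCoeff (f j) = 1)
    (hk : ∀ i, (cluster e B i).card ≤ k)
    (hb : ∀ j, ∃ z : ℤ, b j = z ∧ |z| ≤ 2 ^ d) (hΛ : ∀ v, IL (form l A v) (2 ^ d))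
    (hRL : ∀ i, IL (R i) (2 ^ d)) (hfL : ∀ j, IL (f j) (2 ^ d))
    (i0 : Fin N) (p : MvPolynomial (Fin N₁ ⊕ Fin N₂) ℚ)
    (hp : Tested (cof R b e (cluster e B i0)) f (red e (cluster e B i0)) M p) :
    ∃ z : ℤ, nrm l A p = z ∧
      |z| ≤ 2 ^ (50 * (M + k + m + (d * (m * (k * B) + 1) + k * B) + 1) ^ 3) := by
  choose z hz hz1 using hb
  have hred := hRed N m B k e i0 (hk i0)
  refine main3 hSbw hNrb hBit hLen hWhw N₁ N₂ n k m M (2 ^ (d * (m * (k * B) + 1))) (k * B)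
    (2 ^ d) _ {i // i ∈ cluster e B i0} l A (cof R b e (cluster e B i0)) f
    (red e (cluster e B i0)) (by rw [Fintype.card_coe]; exact hk i0) hA hf
    Nat.one_le_two_pow hΛ Nat.one_le_two_pow ?_ ?_ hred ?_ ?_ ?_ p hp
  · intro i
    unfold cof
    have h1 : (∏ j, b j ^ red e (cluster e B i0) i j : ℚ) =
        ((∏ j, z j ^ red e (cluster e B i0) i j : ℤ) : ℚ) := by
      push_cast
      exact Finset.prod_congr rfl fun j _ => by rw [hz]
    have h2 : (∏ j, z j ^ red e (cluster e B i0) i j).natAbs ≤ 2 ^ (d * (m * (k * B))) := by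
      have h6 : (∏ j, z j ^ red e (cluster e B i0) i j).natAbs =
          ∏ j, (z j ^ red e (cluster e B i0) i j).natAbs := map_prod Int.natAbsHom _ _
      rw [h6]
      calc ∏ j, (z j ^ red e (cluster e B i0) i j).natAbs ≤ ∏ _j : Fin m, 2 ^ (d * (k * B)) := by
            refine Finset.prod_le_prod' fun j _ => ?_
            rw [Int.natAbs_pow]
            have h3 : (z j).natAbs ≤ 2 ^ d := by
              have h4 := hz1 j
              zify
              exact h4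
            calc (z j).natAbs ^ red e (cluster e B i0) i j ≤
                  (2 ^ d) ^ red e (cluster e B i0) i j := Nat.pow_le_pow_left h3 _
              _ ≤ (2 ^ d) ^ (k * B) := Nat.pow_le_pow_right (Nat.one_le_two_pow) (hred i j)
              _ = 2 ^ (d * (k * B)) := by rw [← pow_mul]
        _ = 2 ^ (d * (m * (k * B))) := by
            rw [Finset.prod_const, Finset.card_univ, Fintype.card_fin, ← pow_mul]
            congr 1
            ring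
    rw [h1]
    have h5 := (hLen _ (Fin N₁ ⊕ Fin N₂) _ _ _ _).2.1 (il_int hLen (σ := Fin N₁ ⊕ Fin N₂)
      (∏ j, z j ^ red e (cluster e B i0) i j)) (hRL i)
    refine (hLen _ (Fin N₁ ⊕ Fin N₂) _ 0 _ _).2.2.2.1 ?_ h5
    calc (∏ j, z j ^ red e (cluster e B i0) i j).natAbs * 2 ^ d ≤
          2 ^ (d * (m * (k * B))) * 2 ^ d := Nat.mul_le_mul_right _ h2
      _ = 2 ^ (d * (m * (k * B) + 1)) := by rw [← pow_add]; congr 1
  · intro j
    refine (hLen _ (Fin N₁ ⊕ Fin N₂) _ 0 _ _).2.2.2.1 ?_ (hfL j)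
    exact Nat.pow_le_pow_right (by norm_num) (Nat.le_mul_of_pos_right _ (by omega))
  · exact Nat.pow_le_pow_right (by norm_num) (by omega)
  · calc k * B ≤ 2 ^ (k * B) := Nat.lt_two_pow_self.le
      _ ≤ _ := Nat.pow_le_pow_right (by norm_num) (by omega)
  · refine Nat.pow_le_pow_right (by norm_num) ?_
    have : d ≤ d * (m * (k * B) + 1) := Nat.le_mul_of_pos_right _ (by omega)
    omega

end Pool.Agent.QPI.H26
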