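import Pool.Agent.QPI.DefsF
import Pool.Agent.Helper26_QPI.Cor
import Pool.Agent.Helper26_QPI.Fin
import Pool.Agent.Helper26_QPI.Fin3
import Pool.Agent.Helper56_QPI.A_LIN
import Pool.Agent.Helper56_QPI.A_STE
import Pool.Agent.Helper82_QPI.A_POS
import Pool.Agent.Helper65_QPI.A_PHI
import Pool.Agent.Helper13_QPI.A_MC
import Pool.Agent.Helper13_QPI.A_PHS
import Pool.Agent.Helper1_QPI.MOM
import Pool.Agent.Helper86_QPI.A_NRM
import Pool.Agent.Helper64_QPI.WRO
import Pool.Agent.Helper45_QPI.B_BAS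
import Pool.Agent.Helper89_QPI.COL
import Pool.Agent.Helper65_QPI.B_CRI
import Pool.Agent.Helper9_QPI.B_PDC
import Pool.Agent.Helper67_QPI.B_PAH
import Pool.Agent.Helper62_QPI.B_WDG
import Pool.Agent.Helper76_QPI.B_MAP
import Pool.Agent.Helper72_QPI.B_UPA
import Pool.Agent.Helper18_QPI.B_SCA
import Pool.Agent.Helper74_QPI.B_HAT
import Pool.Agent.Helper48_QPI.C_WHC
import Pool.Agent.Helper32_QPI.C_WHW
import Pool.Agent.Helper80_QPI.C_VBC
import Pool.Agent.Helper32_QPI.C_VBW
import Pool.Agent.Helper88_QPI.C_CNT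
import Pool.Agent.Helper42_QPI.D_LEN
import Pool.Agent.Helper46_QPI.D_HTL
import Pool.Agent.Helper41_QPI.SBW
import Pool.Agent.Helper30_QPI.EXB
import Pool.Agent.Helper41_QPI.NRB
import Pool.Agent.Helper41_QPI.BIT
import Pool.Agent.Helper91_QPI.F_CLU
import Pool.Agent.Helper77_QPI.F_RED
import Pool.Agent.Helper28_QPI.F_DEG
import Pool.Agent.Helper15_QPI.F_SHI

set_option autoImplicit false

/-! All rows of squad QPI together. -/

namespace Pool.Agent.QPI.H26

theorem lin : LinStmt := H56.lin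
theorem ste : SteinStmt := H56.ste lin
theorem pos : PosStmt := H82.a_pos lin
theorem phi : PhiStmt := H65.a_phi lin ste
theorem mc : McStmt := H13.a_mc
theorem phs : PhsStmt := H13.a_phs phi mc
theorem mom_ : MomStmt := H1.a_mom lin phs mc
theorem wro_ : WroStmt := Helper64QPI.WRO
theorem bas : BasStmt := H45.bas
theorem col : ColStmt := H89.b_col
theorem cri : CriStmt := H65.b_cri wro_ bas col
theorem pdc : PdcStmt := H9.b_pdc
theorem pah : PahStmt := H67.pah pdc
theorem wdg : WdgStmt := H62.b_wdg pdc pah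
theorem map_ : MapStmt := H76.b_map
theorem upa : UpaStmt := H72.upa
theorem sca : ScaStmt := H18.sca
theorem hat_ : HatStmt := H74.b_hat
theorem whc : WhcStmt := H48.whc
theorem whw : WhwStmt := H32.whw whc hat_
theorem vbc : VbcStmt := H80.C_VBC
theorem vbw : VbwStmt := H32.vbw vbc
theorem cnt : CntStmt := H88.c_cnt
theorem len_ : LenStmt := H42.d_len
theorem htl : HtlStmt := H46.d_htl
theorem exb : ExbStmt := H30.exb
theorem bit : BitStmt := H41.bit
theorem clu : CluStmt := H91.clu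
theorem red_ : RedStmt := H77.f_red
theorem deg : DegStmt := H28.deg
theorem shi : ShiStmt := H15.f_shi

theorem sbw (h : SbcStmt) : SbwStmt := H41.sbw h htl
theorem nrm_ (hG : GamStmt) (hM : MatStmt) : NrmStmt := H86.a_nrm pos hG hM
theorem nrb (hN : NrmStmt) : NrbStmt := H41.nrb hN len_ exb

end Pool.Agent.QPI.H26
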